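import Mathlib

/-!
# Semiintersecting families: the formula fails for `(k, N) = (3 s, 10 s)`

For `k = 3 s` and `N = 10 s` the formula gives `10`. We show that there is no semiintersecting
family with ten members. Such a family would have two `10 × 10 s` incidence matrices `P`, `Q` whose
product `Pᵀ Q` has all entries `0`, `1` and exactly `s` zeros in every line; a rank (trace) argument
shows that the points come in `10` classes of `s` twins on both sides. The pairs of members sharing
two classes then have a parity problem.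
-/

set_option autoImplicit false

open Finset

namespace Pool.Agent.Results.MP_0bba66_co.ThreeTen

/-- `F` is a semiintersecting family with the parameters `(k, N)`. The disjoint sets `A` and `B`
are the two copies of `Fin N` in `Fin N ⊕ Fin N`. -/
def IsSemiintersecting (k N : ℕ) (F : Finset (Finset (Fin N ⊕ Fin N))) : Prop :=
  (∀ S ∈ F, S.toLeft.card = k ∧ S.toRight.card = k) ∧
    ∀ S ∈ F, ∀ T ∈ F, S ≠ T →
      Xor (S.toLeft ∩ T.toLeft).Nonempty (S.toRight ∩ T.toRight).Nonempty

/-- `f k N` is the largest cardinality of a semiintersecting family with the parameters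
`(k, N)`. -/
noncomputable def f (k N : ℕ) : ℕ :=
  sSup {m : ℕ | ∃ F : Finset (Finset (Fin N ⊕ Fin N)), IsSemiintersecting k N F ∧ F.card = m}

section key

open Matrix
open scoped MatrixOrder

theorem key {n : Type} [Fintype n] (P F : Matrix (Fin 10) n ℝ) (c : ℝ) (hc : c ≠ 0)
    (h1 : ((Pᵀ * F) * (Pᵀ * F)ᵀ).trace = 10 * c)
    (h2 : (((Pᵀ * F) * (Pᵀ * F)ᵀ) * ((Pᵀ * F) * (Pᵀ * F)ᵀ)).trace ≤ 10 * c ^ 2) :
    (F * Fᵀ) * (P * Pᵀ) = c • (1 : Matrix (Fin 10) (Fin 10) ℝ) := by
  have hps : (P * Pᵀ).PosSemidef := by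
    have := Matrix.posSemidef_self_mul_conjTranspose P
    rwa [Matrix.conjTranspose_eq_transpose_of_trivial] at this
  obtain ⟨T, hT⟩ : ∃ T : Matrix (Fin 10) (Fin 10) ℝ, P * Pᵀ = Tᵀ * T := by
    obtain ⟨T, hT⟩ := CStarAlgebra.nonneg_iff_eq_star_mul_self.mp hps.nonneg
    refine ⟨T, ?_⟩
    rwa [Matrix.star_eq_conjTranspose, Matrix.conjTranspose_eq_transpose_of_trivial] at hT
  set Z : Matrix (Fin 10) (Fin 10) ℝ := T * (F * Fᵀ) * Tᵀ with hZ
  have hZt : Zᵀ = Z := by
    rw [hZ]; simp only [Matrix.transpose_mul, Matrix.transpose_transpose, Matrix.mul_assoc]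
  have e1 : Z.trace = 10 * c := by
    rw [← h1, hZ, Matrix.trace_mul_comm, ← Matrix.mul_assoc, ← hT]
    have : (Pᵀ * F) * (Pᵀ * F)ᵀ = Pᵀ * ((F * Fᵀ) * P) := by
      simp only [Matrix.transpose_mul, Matrix.transpose_transpose, Matrix.mul_assoc]
    rw [this, Matrix.trace_mul_comm Pᵀ, Matrix.mul_assoc (F * Fᵀ), Matrix.trace_mul_comm]
  have e2 : (Z * Z).trace ≤ 10 * c ^ 2 := by
    refine le_trans (le_of_eq ?_) h2
    have a1 : Z * Z = T * ((F * Fᵀ) * (Tᵀ * T) * (F * Fᵀ) * Tᵀ) := by
      rw [hZ]; simp only [Matrix.mul_assoc]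
    have a2 : ((Pᵀ * F) * (Pᵀ * F)ᵀ) * ((Pᵀ * F) * (Pᵀ * F)ᵀ)
        = Pᵀ * ((F * Fᵀ) * (P * Pᵀ) * (F * Fᵀ) * P) := by
      simp only [Matrix.transpose_mul, Matrix.transpose_transpose, Matrix.mul_assoc]
    rw [a1, a2, Matrix.trace_mul_comm T, Matrix.trace_mul_comm Pᵀ,
      Matrix.mul_assoc _ Tᵀ T, Matrix.mul_assoc _ P Pᵀ, hT]
  have e3 : ((Z - c • (1 : Matrix (Fin 10) (Fin 10) ℝ))ᴴ * (Z - c • 1)).trace ≤ 0 := by
    have : (Z - c • (1 : Matrix (Fin 10) (Fin 10) ℝ))ᴴ * (Z - c • 1)
        = Z * Z - (2 * c) • Z + (c ^ 2) • 1 := by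
      rw [Matrix.conjTranspose_eq_transpose_of_trivial, Matrix.transpose_sub, hZt,
        Matrix.transpose_smul, Matrix.transpose_one]
      simp only [sub_mul, mul_sub, Matrix.smul_mul, Matrix.mul_smul, Matrix.one_mul,
        Matrix.mul_one, smul_smul]
      rw [two_mul, add_smul, pow_two]
      abel
    rw [this, Matrix.trace_add, Matrix.trace_sub, Matrix.trace_smul, Matrix.trace_smul,
      Matrix.trace_one, e1]
    simp only [Fintype.card_fin, smul_eq_mul]
    push_cast
    nlinarith
  have e4 : Z - c • (1 : Matrix (Fin 10) (Fin 10) ℝ) = 0 := by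
    rw [← Matrix.trace_conjTranspose_mul_self_eq_zero_iff]
    exact le_antisymm e3 (Matrix.posSemidef_conjTranspose_mul_self _).trace_nonneg
  have e5 : Z = c • (1 : Matrix (Fin 10) (Fin 10) ℝ) := sub_eq_zero.1 e4
  have e6 : T * (c⁻¹ • ((F * Fᵀ) * Tᵀ)) = 1 := by
    rw [Matrix.mul_smul, ← Matrix.mul_assoc, ← hZ, e5, smul_smul, inv_mul_cancel₀ hc, one_smul]
  have e7 := mul_eq_one_comm.1 e6
  rw [Matrix.smul_mul, Matrix.mul_assoc, ← hT] at e7
  rw [← e7, smul_smul, mul_inv_cancel₀ hc, one_smul]

end key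

section conf

/-- Ten members with the halves `A i`, `B i`. -/
structure Conf {s : ℕ} (A B : Fin 10 → Finset (Fin (10 * s))) : Prop where
  cA : ∀ i, (A i).card = 3 * s
  cB : ∀ i, (B i).card = 3 * s
  meet : ∀ i j, i ≠ j → ((A i ∩ A j).Nonempty ↔ ¬ (B i ∩ B j).Nonempty)

variable {s : ℕ} {A B : Fin 10 → Finset (Fin (10 * s))}

theorem Conf.symm (h : Conf A B) : Conf B A :=
  ⟨h.cB, h.cA, fun i j hij => by have := h.meet i j hij; tauto⟩

/-- The members through a point. -/
def I (A : Fin 10 → Finset (Fin (10 * s))) (a : Fin (10 * s)) : Finset (Fin 10) :=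
  univ.filter fun i => a ∈ A i

@[simp] theorem mem_I (a : Fin (10 * s)) (i : Fin 10) : i ∈ I A a ↔ a ∈ A i := by simp [I]

theorem sum_card_I_inter (K : Finset (Fin 10)) :
    ∑ a, (K ∩ I A a).card = ∑ i ∈ K, (A i).card := by
  have : ∀ a, (K ∩ I A a).card = ∑ i ∈ K, if a ∈ A i then 1 else 0 := by
    intro a
    rw [← Finset.card_filter]
    congr 1
    ext i; simp
  simp only [this]
  rw [Finset.sum_comm]
  refine Finset.sum_congr rfl fun i _ => ?_
  rw [← Finset.card_filter]
  congr 1
  ext i; simp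

theorem Conf.card_I_le (h : Conf A B) (hs : 0 < s) (a : Fin (10 * s)) : (I A a).card ≤ 3 := by
  have hd : ∀ i ∈ I A a, ∀ j ∈ I A a, i ≠ j → Disjoint (B i) (B j) := by
    intro i hi j hj hij
    rw [Finset.disjoint_iff_inter_eq_empty, ← Finset.not_nonempty_iff_eq_empty]
    rw [← h.meet i j hij]
    exact ⟨a, Finset.mem_inter.2 ⟨(mem_I a i).1 hi, (mem_I a j).1 hj⟩⟩
  have h1 := Finset.card_biUnion hd
  have h2 : ((I A a).biUnion B).card ≤ 10 * s := by
    have := Finset.card_le_univ ((I A a).biUnion B)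
    simpa using this
  rw [h1] at h2
  simp only [h.cB, Finset.sum_const, smul_eq_mul] at h2
  by_contra hc
  have : 4 ≤ (I A a).card := by omega
  nlinarith

theorem Conf.card_I (h : Conf A B) (hs : 0 < s) (a : Fin (10 * s)) : (I A a).card = 3 := by
  have h1 : ∑ a, (I A a).card = ∑ a : Fin (10 * s), 3 := by
    have := sum_card_I_inter (A := A) univ
    simp only [Finset.univ_inter, h.cA, Finset.sum_const, Finset.card_univ, Fintype.card_fin,
      smul_eq_mul] at this
    rw [this]
    simp only [Finset.sum_const, Finset.card_univ, Fintype.card_fin, smul_eq_mul]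
    try ring
  exact (Finset.sum_eq_sum_iff_of_le fun a _ => h.card_I_le hs a).1 h1 a (Finset.mem_univ _)

theorem Conf.card_le_one (h : Conf A B) (a b : Fin (10 * s)) : (I A a ∩ I B b).card ≤ 1 := by
  rw [Finset.card_le_one]
  intro i hi j hj
  by_contra hij
  simp only [Finset.mem_inter, mem_I] at hi hj
  exact (h.meet i j hij).1 ⟨a, by simp [hi.1, hj.1]⟩ ⟨b, by simp [hi.2, hj.2]⟩

/-- The points on the other side which have no common member with `a`. -/
def Nn (A B : Fin 10 → Finset (Fin (10 * s))) (a : Fin (10 * s)) : Finset (Fin (10 * s)) :=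
  univ.filter fun b => (I A a ∩ I B b).card = 0

theorem mem_Nn (a b : Fin (10 * s)) : b ∈ Nn A B a ↔ (I A a ∩ I B b).card = 0 := by
  simp [Nn]

theorem mem_Nn_comm (a b : Fin (10 * s)) : b ∈ Nn A B a ↔ a ∈ Nn B A b := by
  rw [mem_Nn, mem_Nn, Finset.inter_comm]

theorem Conf.card_Nn (h : Conf A B) (hs : 0 < s) (a : Fin (10 * s)) : (Nn A B a).card = s := by
  have h1 := sum_card_I_inter (A := B) (I A a)
  have h2 : (Nn A B a).card = ∑ b, if (I A a ∩ I B b).card = 0 then 1 else 0 := by
    rw [Nn, Finset.card_filter]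
  have h3 : ∑ b, ((I A a ∩ I B b).card + if (I A a ∩ I B b).card = 0 then 1 else 0) = 10 * s := by
    have : ∀ b, ((I A a ∩ I B b).card + if (I A a ∩ I B b).card = 0 then 1 else 0) = 1 := by
      intro b
      have := h.card_le_one a b
      split_ifs <;> omega
    simp only [this, Finset.sum_const, Finset.card_univ, Fintype.card_fin, smul_eq_mul, mul_one]
  rw [Finset.sum_add_distrib, h1, ← h2] at h3
  simp only [h.cB, Finset.sum_const, smul_eq_mul, h.card_I hs] at h3
  omega

/-- The number of common non-neighbours. -/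
def w (A B : Fin 10 → Finset (Fin (10 * s))) (a a' : Fin (10 * s)) : ℕ :=
  (Nn A B a ∩ Nn A B a').card

theorem w_comm (a a' : Fin (10 * s)) : w A B a a' = w A B a' a := by
  rw [w, w, Finset.inter_comm]

theorem Conf.w_le (h : Conf A B) (hs : 0 < s) (a a' : Fin (10 * s)) : w A B a a' ≤ s := by
  exact (Finset.card_le_card Finset.inter_subset_left).trans (h.card_Nn hs a).le

theorem Conf.w_self (h : Conf A B) (hs : 0 < s) (a : Fin (10 * s)) : w A B a a = s := by
  rw [w, Finset.inter_self, h.card_Nn hs]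

theorem Conf.sum_w (h : Conf A B) (hs : 0 < s) (a : Fin (10 * s)) :
    ∑ a', w A B a a' = s * s := by
  have : ∀ a', w A B a a' = ∑ b ∈ Nn A B a, if a' ∈ Nn B A b then 1 else 0 := by
    intro a'
    rw [← Finset.card_filter, w]
    congr 1
    ext b
    simp only [Finset.mem_inter, Finset.mem_filter]
    rw [mem_Nn_comm a' b]
  simp only [this]
  rw [Finset.sum_comm]
  have h2 : ∀ b ∈ Nn A B a, (∑ a' : Fin (10 * s), if a' ∈ Nn B A b then 1 else 0) = s := by
    intro b _
    rw [← Finset.card_filter, Finset.filter_univ_mem, h.symm.card_Nn hs]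
  rw [Finset.sum_congr rfl h2, Finset.sum_const, h.card_Nn hs, smul_eq_mul]

section matrices

open Matrix

/-- The incidence matrix. -/
noncomputable def P (A : Fin 10 → Finset (Fin (10 * s))) : Matrix (Fin 10) (Fin (10 * s)) ℝ :=
  Matrix.of fun i a => if a ∈ A i then 1 else 0

/-- The shifted incidence matrix. -/
noncomputable def F (B : Fin 10 → Finset (Fin (10 * s))) : Matrix (Fin 10) (Fin (10 * s)) ℝ :=
  Matrix.of fun i b => 1 / 3 - if b ∈ B i then 1 else 0

theorem sum_P (a : Fin (10 * s)) : ∑ i, P A i a = (I A a).card := by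
  rw [I, Finset.card_filter]
  simp [P]

theorem sum_P_mul_P (a b : Fin (10 * s)) : ∑ i, P A i a * P B i b = (I A a ∩ I B b).card := by
  have : (I A a ∩ I B b).card = ∑ i, if (a ∈ A i ∧ b ∈ B i) then 1 else 0 := by
    rw [← Finset.card_filter]
    congr 1
    ext i; simp
  rw [this]
  push_cast
  refine Finset.sum_congr rfl fun i _ => ?_
  by_cases h1 : a ∈ A i <;> by_cases h2 : b ∈ B i <;> simp [P, h1, h2]

theorem Conf.PtF (h : Conf A B) (hs : 0 < s) (a b : Fin (10 * s)) :
    ((P A)ᵀ * F B) a b = if b ∈ Nn A B a then 1 else 0 := by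
  have h1 : ((P A)ᵀ * F B) a b = ∑ i, (P A i a * (1 / 3) - P A i a * P B i b) := by
    rw [Matrix.mul_apply]
    refine Finset.sum_congr rfl fun i _ => ?_
    simp only [Matrix.transpose_apply, F, P, Matrix.of_apply]
    ring
  rw [h1, Finset.sum_sub_distrib, ← Finset.sum_mul, sum_P, sum_P_mul_P, h.card_I hs]
  simp only [mem_Nn]
  have := h.card_le_one a b
  split_ifs with h3
  · rw [h3]; norm_num
  · have : (I A a ∩ I B b).card = 1 := by omega
    rw [this]; norm_num

theorem Conf.MMt (h : Conf A B) (hs : 0 < s) (a a' : Fin (10 * s)) :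
    (((P A)ᵀ * F B) * ((P A)ᵀ * F B)ᵀ) a a' = w A B a a' := by
  rw [Matrix.mul_apply, w]
  have : (Nn A B a ∩ Nn A B a').card = ∑ b, if (b ∈ Nn A B a ∧ b ∈ Nn A B a') then 1 else 0 := by
    rw [← Finset.card_filter]
    congr 1
    ext i; simp
  rw [this]
  push_cast
  refine Finset.sum_congr rfl fun b _ => ?_
  rw [Matrix.transpose_apply, h.PtF hs, h.PtF hs]
  by_cases h1 : b ∈ Nn A B a <;> by_cases h2 : b ∈ Nn A B a' <;> simp [h1, h2]

theorem Conf.main (h : Conf A B) (hs : 0 < s) :
    (F B * (F B)ᵀ) * (P A * (P A)ᵀ) = ((s : ℝ) ^ 2) • (1 : Matrix (Fin 10) (Fin 10) ℝ) := by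
  have hs' : (0 : ℝ) < s := by exact_mod_cast hs
  apply key _ _ _ (by positivity)
  · rw [Matrix.trace]
    simp only [Matrix.diag_apply, h.MMt hs, h.w_self hs, Finset.sum_const, Finset.card_univ,
      Fintype.card_fin, nsmul_eq_mul]
    push_cast
    ring
  · rw [Matrix.trace]
    simp only [Matrix.diag_apply]
    have h1 : ∀ a : Fin (10 * s), ((((P A)ᵀ * F B) * ((P A)ᵀ * F B)ᵀ) *
        (((P A)ᵀ * F B) * ((P A)ᵀ * F B)ᵀ)) a a ≤ (s : ℝ) * (s * s) := by
      intro a
      rw [Matrix.mul_apply]
      simp only [h.MMt hs]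
      have h2 : ((s * (s * s) : ℕ) : ℝ) = ((∑ a', w A B a a' * s : ℕ) : ℝ) := by
        rw [← Finset.sum_mul, h.sum_w hs]; push_cast; ring
      push_cast at h2
      rw [h2]
      refine Finset.sum_le_sum fun a' _ => ?_
      have h3 : (w A B a' a : ℝ) ≤ s := by exact_mod_cast h.w_le hs a' a
      exact mul_le_mul_of_nonneg_left h3 (by positivity)
    calc ∑ a : Fin (10 * s), ((((P A)ᵀ * F B) * ((P A)ᵀ * F B)ᵀ) *
        (((P A)ᵀ * F B) * ((P A)ᵀ * F B)ᵀ)) a a ≤ ∑ a : Fin (10 * s), (s : ℝ) * (s * s) :=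
          Finset.sum_le_sum fun a _ => h1 a
      _ = 10 * ((s : ℝ) ^ 2) ^ 2 := by
          simp only [Finset.sum_const, Finset.card_univ, Fintype.card_fin, nsmul_eq_mul]
          push_cast; ring

theorem Conf.MMtPt (h : Conf A B) (hs : 0 < s) (i : Fin 10) (a : Fin (10 * s)) :
    ∑ a', (w A B a a' : ℝ) * P A i a' = (s : ℝ) ^ 2 * P A i a := by
  have h1 : (((P A)ᵀ * F B) * ((P A)ᵀ * F B)ᵀ) * (P A)ᵀ = ((s : ℝ) ^ 2) • (P A)ᵀ := by
    have : (((P A)ᵀ * F B) * ((P A)ᵀ * F B)ᵀ) * (P A)ᵀ
        = (P A)ᵀ * ((F B * (F B)ᵀ) * (P A * (P A)ᵀ)) := by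
      simp only [Matrix.transpose_mul, Matrix.transpose_transpose, Matrix.mul_assoc]
    rw [this, h.main hs, Matrix.mul_smul, Matrix.mul_one]
  have h2 := congrFun (congrFun h1 a) i
  rw [Matrix.mul_apply] at h2
  simp only [h.MMt hs, Matrix.smul_apply, Matrix.transpose_apply, smul_eq_mul] at h2
  exact h2

theorem Conf.twin (h : Conf A B) (hs : 0 < s) {a a' b : Fin (10 * s)} (hb : b ∈ Nn A B a)
    (hb' : b ∈ Nn A B a') : I A a = I A a' := by
  apply Finset.eq_of_subset_of_card_le _ (by rw [h.card_I hs, h.card_I hs])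
  intro i hi
  rw [mem_I] at hi ⊢
  by_contra hn
  have h1 := h.MMtPt hs i a
  have h2 : ∑ a', (w A B a a' : ℝ) = (s : ℝ) ^ 2 := by
    have := h.sum_w hs a
    have h3 : ((∑ a', w A B a a' : ℕ) : ℝ) = ((s * s : ℕ) : ℝ) := by rw [this]
    push_cast at h3
    rw [h3]; ring
  have h3 : P A i a = 1 := by simp [P, hi]
  have h4 : ∑ a', (w A B a a' : ℝ) * (1 - P A i a') = 0 := by
    simp only [mul_sub, mul_one, Finset.sum_sub_distrib, h1, h2, h3]; ring
  have h5 : ∀ a' ∈ (univ : Finset (Fin (10 * s))), 0 ≤ (w A B a a' : ℝ) * (1 - P A i a') := by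
    intro a' _
    apply mul_nonneg (by positivity)
    simp only [P, Matrix.of_apply]
    split_ifs <;> norm_num
  have h6 := (Finset.sum_eq_zero_iff_of_nonneg h5).1 h4 a' (Finset.mem_univ _)
  have h7 : P A i a' = 0 := by simp [P, hn]
  rw [h7, sub_zero, mul_one] at h6
  have h8 : w A B a a' = 0 := by exact_mod_cast h6
  rw [w, Finset.card_eq_zero] at h8
  have : b ∈ Nn A B a ∩ Nn A B a' := Finset.mem_inter.2 ⟨hb, hb'⟩
  rw [h8] at this
  simp at this

theorem Conf.inj (h : Conf A B) (hs : 0 < s) {i j : Fin 10} (hij : A i = A j) : i = j := by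
  by_contra hne
  have h1 := h.main hs
  have e1 := congrFun (congrFun h1 i) i
  have e2 := congrFun (congrFun h1 i) j
  rw [Matrix.mul_apply] at e1 e2
  have e3 : ∀ l, (P A * (P A)ᵀ) l i = (P A * (P A)ᵀ) l j := by
    intro l
    rw [Matrix.mul_apply, Matrix.mul_apply]
    refine Finset.sum_congr rfl fun a _ => ?_
    simp only [Matrix.transpose_apply, P, Matrix.of_apply, hij]
  simp only [e3] at e1
  rw [e1] at e2
  have hs' : (0 : ℝ) < s := by exact_mod_cast hs
  simp [Matrix.smul_apply, hne] at e2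
  omega

end matrices

theorem Conf.card_class (h : Conf A B) (hs : 0 < s) (a : Fin (10 * s)) :
    (univ.filter fun a' => I A a' = I A a).card = s := by
  have h1 : (Nn A B a).Nonempty := by
    rw [← Finset.card_pos, h.card_Nn hs]; exact hs
  obtain ⟨b, hb⟩ := h1
  have : (univ.filter fun a' => I A a' = I A a) = Nn B A b := by
    ext a'
    rw [← mem_Nn_comm]
    simp only [Finset.mem_filter, Finset.mem_univ, true_and]
    constructor
    · intro h2
      rw [mem_Nn, h2, ← mem_Nn]; exact hb
    · intro h2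
      exact h.twin hs h2 hb
  rw [this, h.symm.card_Nn hs]

/-- The number of classes in the intersection of two members. -/
def r (A : Fin 10 → Finset (Fin (10 * s))) (i j : Fin 10) : ℕ := ((A i ∩ A j).image (I A)).card

theorem r_comm (i j : Fin 10) : r A i j = r A j i := by rw [r, r, Finset.inter_comm]

theorem Conf.card_inter (h : Conf A B) (hs : 0 < s) (i j : Fin 10) :
    (A i ∩ A j).card = r A i j * s := by
  rw [Finset.card_eq_sum_card_image (I A) (A i ∩ A j)]
  have : ∀ t ∈ (A i ∩ A j).image (I A), ((A i ∩ A j).filter fun x => I A x = t).card = s := by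
    intro t ht
    obtain ⟨a, ha, rfl⟩ := Finset.mem_image.1 ht
    refine Eq.trans ?_ (h.card_class hs a)
    congr 1
    ext x
    simp only [Finset.mem_filter, Finset.mem_inter, Finset.mem_univ, true_and]
    constructor
    · exact fun hx => hx.2
    · intro hx
      refine ⟨?_, hx⟩
      rw [← mem_I, ← mem_I (i := j), hx, mem_I, mem_I]
      exact Finset.mem_inter.1 ha
  rw [Finset.sum_congr rfl this, Finset.sum_const, smul_eq_mul, r]

theorem Conf.r_self (h : Conf A B) (hs : 0 < s) (i : Fin 10) : r A i i = 3 := by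
  have := h.card_inter hs i i
  rw [Finset.inter_self, h.cA] at this
  exact (Nat.eq_of_mul_eq_mul_right hs this).symm

theorem Conf.r_le (h : Conf A B) (hs : 0 < s) {i j : Fin 10} (hij : i ≠ j) : r A i j ≤ 2 := by
  have h1 := h.card_inter hs i j
  have h2 : (A i ∩ A j).card ≤ 3 * s := by
    rw [← h.cA i]; exact Finset.card_le_card Finset.inter_subset_left
  rw [h1] at h2
  have h3 : r A i j ≤ 3 := Nat.le_of_mul_le_mul_right h2 hs
  by_contra hc
  have h4 : r A i j = 3 := by omega
  rw [h4] at h1
  have h5 : A i ∩ A j = A i := Finset.eq_of_subset_of_card_le Finset.inter_subset_left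
    (by rw [h1, h.cA])
  have h6 : A i ∩ A j = A j := Finset.eq_of_subset_of_card_le Finset.inter_subset_right
    (by rw [h1, h.cA])
  exact hij (h.inj hs (h5.symm.trans h6))

theorem r_eq_zero (i j : Fin 10) : r A i j = 0 ↔ ¬ (A i ∩ A j).Nonempty := by
  rw [r, Finset.card_eq_zero, Finset.image_eq_empty, Finset.not_nonempty_iff_eq_empty]

theorem Conf.sum_r (h : Conf A B) (hs : 0 < s) (i : Fin 10) : ∑ j, r A i j = 9 := by
  have h1 : ∑ j, (A i ∩ A j).card = ∑ a ∈ A i, (I A a).card := by
    have e1 : ∀ j, (A i ∩ A j).card = ∑ a ∈ A i, if a ∈ A j then 1 else 0 := by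
      intro j
      rw [← Finset.card_filter, Finset.filter_mem_eq_inter]
    simp only [e1]
    rw [Finset.sum_comm]
    refine Finset.sum_congr rfl fun a _ => ?_
    rw [← Finset.card_filter, I]
  simp only [h.card_inter hs, h.card_I hs, ← Finset.sum_mul, Finset.sum_const, h.cA,
    smul_eq_mul] at h1
  have : (∑ j, r A i j) * s = 9 * s := by rw [h1]; ring
  exact Nat.eq_of_mul_eq_mul_right hs this

/-- The number of the members sharing exactly two classes with `i`. -/
def d (A : Fin 10 → Finset (Fin (10 * s))) (i : Fin 10) : ℕ :=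
  (univ.filter fun j => r A i j = 2).card

theorem Conf.d_eq (h : Conf A B) (hs : 0 < s) (i : Fin 10) :
    d A i + 3 = (univ.filter fun j => r A i j = 0).card := by
  have h1 : ∑ j, (r A i j + (if r A i j = 0 then 1 else 0))
      = ∑ j, (1 + (if r A i j = 2 then 1 else 0) + (if j = i then 2 else 0)) := by
    refine Finset.sum_congr rfl fun j _ => ?_
    by_cases hij : j = i
    · subst hij; rw [h.r_self hs]; simp
    · have := h.r_le hs (Ne.symm hij)
      rw [if_neg hij]
      split_ifs <;> omega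
  rw [Finset.sum_add_distrib, Finset.sum_add_distrib, Finset.sum_add_distrib, h.sum_r hs,
    ← Finset.card_filter, ← Finset.card_filter] at h1
  simp only [Finset.sum_const, Finset.card_univ, Fintype.card_fin, smul_eq_mul, mul_one,
    Finset.sum_ite_eq', Finset.mem_univ, if_true] at h1
  rw [d]
  omega

theorem Conf.d_add (h : Conf A B) (hs : 0 < s) (i : Fin 10) : d A i + d B i = 3 := by
  have h1 := h.d_eq hs i
  have h2 := h.symm.d_eq hs i
  have h3 : (univ.filter fun j => r A i j = 0).card + (univ.filter fun j => r B i j = 0).card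
      = 9 := by
    rw [Finset.card_filter, Finset.card_filter, ← Finset.sum_add_distrib]
    have : ∀ j, ((if r A i j = 0 then 1 else 0) + (if r B i j = 0 then 1 else 0) : ℕ)
        = if j = i then 0 else 1 := by
      intro j
      by_cases hij : j = i
      · subst hij; rw [h.r_self hs, h.symm.r_self hs]; simp
      · rw [if_neg hij]
        have h4 := h.meet i j (Ne.symm hij)
        have h5 := r_eq_zero (A := A) i j
        have h6 := r_eq_zero (A := B) i j
        by_cases h7 : (A i ∩ A j).Nonempty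
        · have h8 : ¬ (B i ∩ B j).Nonempty := h4.1 h7
          rw [if_pos (h6.2 h8), if_neg (fun h9 => h5.1 h9 h7)]
        · have h8 : (B i ∩ B j).Nonempty := by tauto
          rw [if_pos (h5.2 h7), if_neg (fun h9 => h6.1 h9 h8)]
    simp only [this]
    rw [Finset.sum_ite]
    simp [Finset.filter_ne']
  omega

/-- The number of the ordered pairs of members sharing exactly two classes. -/
def D (A : Fin 10 → Finset (Fin (10 * s))) : Finset (Fin 10 × Fin 10) :=
  univ.filter fun p => r A p.1 p.2 = 2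

theorem card_D : (D A).card = ∑ i, d A i := by
  rw [D, Finset.card_filter, Fintype.sum_prod_type]
  refine Finset.sum_congr rfl fun i _ => ?_
  rw [d, Finset.card_filter]

theorem Conf.even_D (h : Conf A B) (hs : 0 < s) : Even (D A).card := by
  classical
  let G : SimpleGraph (Fin 10) :=
    { Adj := fun i j => r A i j = 2
      symm := ⟨fun i j hij => by rw [r_comm]; exact hij⟩
      loopless := ⟨fun i hi => by rw [h.r_self hs] at hi; omega⟩ }
  have h1 := G.sum_degrees_eq_twice_card_edges
  have h2 : ∀ i, G.degree i = d A i := by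
    intro i
    rw [← SimpleGraph.card_neighborFinset_eq_degree, d]
    congr 1
    ext j
    simp [G]
  simp only [h2] at h1
  rw [card_D, h1]
  exact even_two_mul _

/-- The ordered pairs of points which lie together in exactly two members. -/
def TT (A : Fin 10 → Finset (Fin (10 * s))) : Finset (Fin (10 * s) × Fin (10 * s)) :=
  univ.filter fun p => (I A p.1 ∩ I A p.2).card = 2

section matrices2

open Matrix

theorem trace_identity :
    ∑ a, ∑ a', ((I A a ∩ I A a').card : ℝ) ^ 2 = ∑ i, ∑ j, ((A i ∩ A j).card : ℝ) ^ 2 := by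
  have h1 : ∀ a a', ((P A)ᵀ * P A) a a' = ((I A a ∩ I A a').card : ℝ) := by
    intro a a'
    rw [Matrix.mul_apply, ← sum_P_mul_P]
    rfl
  have h2 : ∀ i j, (P A * (P A)ᵀ) i j = ((A i ∩ A j).card : ℝ) := by
    intro i j
    rw [Matrix.mul_apply]
    have : (A i ∩ A j).card = ∑ a, if (a ∈ A i ∧ a ∈ A j) then 1 else 0 := by
      rw [← Finset.card_filter]
      congr 1
      ext i; simp
    rw [this]
    push_cast
    refine Finset.sum_congr rfl fun a _ => ?_
    by_cases h1 : a ∈ A i <;> by_cases h2 : a ∈ A j <;> simp [P, h1, h2]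
  have h3 : (((P A)ᵀ * P A) * ((P A)ᵀ * P A)).trace = ((P A * (P A)ᵀ) * (P A * (P A)ᵀ)).trace := by
    rw [Matrix.mul_assoc, Matrix.trace_mul_comm]
    simp only [Matrix.mul_assoc]
  rw [Matrix.trace, Matrix.trace] at h3
  simp only [Matrix.diag_apply, Matrix.mul_apply (M := (P A)ᵀ * P A),
    Matrix.mul_apply (M := P A * (P A)ᵀ), h1, h2] at h3
  convert h3 using 3 with a _ a' _ i _ j _
  · rw [pow_two, Finset.inter_comm (I A a') (I A a)]
  · rw [pow_two, Finset.inter_comm (A j) (A i)]

end matrices2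

theorem Conf.card_TT (h : Conf A B) (hs : 0 < s) : (TT A).card = s ^ 2 * (D A).card := by
  have h0 : ∑ a, ∑ a', (I A a ∩ I A a').card ^ 2 = ∑ i, ∑ j, (A i ∩ A j).card ^ 2 := by
    have := trace_identity (A := A)
    exact_mod_cast this
  have h1 : ∑ a, ∑ a', (I A a ∩ I A a').card ^ 2 = 90 * s ^ 2 + 2 * (TT A).card + 60 * s ^ 2 := by
    have e1 : ∀ a a', (I A a ∩ I A a').card ^ 2 = (I A a ∩ I A a').card
        + 2 * (if (I A a ∩ I A a').card = 2 then 1 else 0) +
          6 * (if I A a' = I A a then 1 else 0) := by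
      intro a a'
      have e2 : (I A a ∩ I A a').card ≤ 3 := by
        rw [← h.card_I hs a]; exact Finset.card_le_card Finset.inter_subset_left
      by_cases e3 : I A a' = I A a
      · rw [e3, Finset.inter_self, h.card_I hs]; simp
      · have e4 : (I A a ∩ I A a').card ≠ 3 := by
          intro e5
          have e6 : I A a ∩ I A a' = I A a := Finset.eq_of_subset_of_card_le
            Finset.inter_subset_left (by rw [e5, h.card_I hs])
          have e7 : I A a ∩ I A a' = I A a' := Finset.eq_of_subset_of_card_le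
            Finset.inter_subset_right (by rw [e5, h.card_I hs])
          exact e3 (e7.symm.trans e6)
        rw [if_neg e3]
        generalize (I A a ∩ I A a').card = x at *
        have : x = 0 ∨ x = 1 ∨ x = 2 := by omega
        rcases this with rfl | rfl | rfl <;> simp
    simp only [e1, Finset.sum_add_distrib, ← Finset.mul_sum]
    have e2 : ∀ a, ∑ a', (I A a ∩ I A a').card = 9 * s := by
      intro a
      rw [sum_card_I_inter]
      simp only [h.cA, Finset.sum_const, h.card_I hs, smul_eq_mul]; ring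
    have e3 : ∀ a, (∑ a' : Fin (10 * s), if I A a' = I A a then 1 else 0) = s := by
      intro a
      rw [← Finset.card_filter, h.card_class hs]
    have e4 : ∑ a, ∑ a', (if (I A a ∩ I A a').card = 2 then 1 else 0) = (TT A).card := by
      rw [TT, Finset.card_filter, Fintype.sum_prod_type]
    rw [e4]
    simp only [e2, e3, Finset.sum_const, Finset.card_univ, Fintype.card_fin, smul_eq_mul]
    ring
  have h2 : ∑ i, ∑ j, (A i ∩ A j).card ^ 2 = s ^ 2 * (90 + 2 * (D A).card + 60) := by
    have e0 : ∀ i j, (A i ∩ A j).card ^ 2 = s ^ 2 * r A i j ^ 2 := by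
      intro i j; rw [h.card_inter hs]; ring
    simp only [e0, ← Finset.mul_sum]
    suffices hh : ∑ i, ∑ j, r A i j ^ 2 = 90 + 2 * (D A).card + 60 by rw [hh]
    have e1 : ∀ i j, r A i j ^ 2 = r A i j + 2 * (if r A i j = 2 then 1 else 0)
        + 6 * (if j = i then 1 else 0) := by
      intro i j
      by_cases hij : j = i
      · subst hij; rw [h.r_self hs]; simp
      · have := h.r_le hs (Ne.symm hij)
        rw [if_neg hij]
        generalize r A i j = x at *
        have : x = 0 ∨ x = 1 ∨ x = 2 := by omega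
        rcases this with rfl | rfl | rfl <;> simp
    simp only [e1, Finset.sum_add_distrib, ← Finset.mul_sum]
    have e4 : ∑ i, ∑ j, (if r A i j = 2 then 1 else 0) = (D A).card := by
      rw [D, Finset.card_filter, Fintype.sum_prod_type]
    have e5 : ∀ i : Fin 10, (∑ j : Fin 10, if j = i then 1 else 0) = 1 := by
      intro i
      rw [Finset.sum_ite_eq' Finset.univ i (fun _ => 1), if_pos (Finset.mem_univ i)]
    rw [e4]
    simp only [h.sum_r hs, e5, Finset.sum_const, Finset.card_univ, Fintype.card_fin, smul_eq_mul]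
    ring
  rw [h1, h2] at h0
  have h3 : 2 * (TT A).card = 2 * (s ^ 2 * (D A).card) := by
    have e : s ^ 2 * (90 + 2 * (D A).card + 60)
        = 90 * s ^ 2 + 2 * (s ^ 2 * (D A).card) + 60 * s ^ 2 := by ring
    omega
  omega

theorem Conf.TT_le (h : Conf A B) (hs : 0 < s) : (TT A).card ≤ (D B).card * (s * s) := by
  classical
  have hβ : ∀ x y : Fin 10, ∃ b : Fin (10 * s), x ≠ y → b ∈ B y ∧ b ∉ B x := by
    intro x y
    by_cases hxy : x = y
    · exact ⟨⟨0, by omega⟩, fun h => (h hxy).elim⟩
    · by_contra hc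
      push Not at hc
      have : B y ⊆ B x := by
        intro b hb
        exact (hc b).2 hb
      have h2 := Finset.eq_of_subset_of_card_le this (by rw [h.cB, h.cB])
      exact hxy (h.symm.inj hs h2.symm)
  choose β hβ using hβ
  have hsub : TT A ⊆ (D B).biUnion fun p => (Nn B A (β p.1 p.2)) ×ˢ (Nn B A (β p.2 p.1)) := by
    rintro ⟨a, a'⟩ hp
    simp only [TT, Finset.mem_filter, Finset.mem_univ, true_and] at hp
    have c1 : (I A a \ I A a').card = 1 := by
      have := Finset.card_sdiff_add_card_inter (I A a) (I A a')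
      rw [h.card_I hs, hp] at this; omega
    have c2 : (I A a' \ I A a).card = 1 := by
      have := Finset.card_sdiff_add_card_inter (I A a') (I A a)
      rw [Finset.inter_comm, h.card_I hs, hp] at this; omega
    obtain ⟨x, hx⟩ := Finset.card_eq_one.1 c1
    obtain ⟨y, hy⟩ := Finset.card_eq_one.1 c2
    have hx1 : x ∈ I A a ∧ x ∉ I A a' := by
      have : x ∈ I A a \ I A a' := by rw [hx]; simp
      simpa using this
    have hy1 : y ∈ I A a' ∧ y ∉ I A a := by
      have : y ∈ I A a' \ I A a := by rw [hy]; simp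
      simpa using this
    have hxy : x ≠ y := by
      rintro rfl; exact hx1.2 hy1.1
    -- the relation between the two intersections
    have rel : ∀ b, (I A a ∩ I B b).card + (if b ∈ B y then 1 else 0)
        = (I A a' ∩ I B b).card + (if b ∈ B x then 1 else 0) := by
      intro b
      have r1 : (I A a ∩ I B b).card = ((I A a ∩ I A a') ∩ I B b).card
          + (if b ∈ B x then 1 else 0) := by
        have q1 : I A a ∩ I B b = ((I A a ∩ I A a') ∩ I B b) ∪ ((I A a \ I A a') ∩ I B b) := by
          ext i; simp only [Finset.mem_inter, Finset.mem_union, Finset.mem_sdiff]; tauto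
        have q2 : Disjoint ((I A a ∩ I A a') ∩ I B b) ((I A a \ I A a') ∩ I B b) := by
          rw [Finset.disjoint_left]
          intro i hi hi'
          simp only [Finset.mem_inter, Finset.mem_sdiff] at hi hi'
          tauto
        rw [q1, Finset.card_union_of_disjoint q2, hx]
        congr 1
        by_cases hb : b ∈ B x
        · rw [if_pos hb, Finset.singleton_inter_of_mem (by simpa using hb), Finset.card_singleton]
        · rw [if_neg hb, Finset.singleton_inter_of_notMem (by simpa using hb), Finset.card_empty]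
      have r2 : (I A a' ∩ I B b).card = ((I A a ∩ I A a') ∩ I B b).card
          + (if b ∈ B y then 1 else 0) := by
        have q1 : I A a' ∩ I B b = ((I A a ∩ I A a') ∩ I B b) ∪ ((I A a' \ I A a) ∩ I B b) := by
          ext i; simp only [Finset.mem_inter, Finset.mem_union, Finset.mem_sdiff]; tauto
        have q2 : Disjoint ((I A a ∩ I A a') ∩ I B b) ((I A a' \ I A a) ∩ I B b) := by
          rw [Finset.disjoint_left]
          intro i hi hi'
          simp only [Finset.mem_inter, Finset.mem_sdiff] at hi hi'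
          tauto
        rw [q1, Finset.card_union_of_disjoint q2, hy]
        congr 1
        by_cases hb : b ∈ B y
        · rw [if_pos hb, Finset.singleton_inter_of_mem (by simpa using hb), Finset.card_singleton]
        · rw [if_neg hb, Finset.singleton_inter_of_notMem (by simpa using hb), Finset.card_empty]
      omega
    have n1 : ∀ b, b ∈ B y → b ∉ B x → b ∈ Nn A B a := by
      intro b h1 h2
      have := rel b
      rw [if_pos h1, if_neg h2] at this
      have h3 := h.card_le_one a' b
      rw [mem_Nn]; omega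
    have n2 : ∀ b, b ∈ B x → b ∉ B y → b ∈ Nn A B a' := by
      intro b h1 h2
      have := rel b
      rw [if_pos h1, if_neg h2] at this
      have h3 := h.card_le_one a b
      rw [mem_Nn]; omega
    have hne : I A a ≠ I A a' := by
      intro he
      rw [he, Finset.inter_self, h.card_I hs] at hp
      omega
    have n3 : B x \ B y = Nn A B a' := by
      ext b
      rw [Finset.mem_sdiff]
      constructor
      · rintro ⟨h1, h2⟩; exact n2 b h1 h2
      · intro hb
        have h1 : b ∉ Nn A B a := fun h2 => hne (h.twin hs h2 hb)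
        rw [mem_Nn] at h1 hb
        have := rel b
        have h3 := h.card_le_one a b
        rw [hb] at this
        by_cases h4 : b ∈ B x
        · by_cases h5 : b ∈ B y
          · rw [if_pos h4, if_pos h5] at this; omega
          · exact ⟨h4, h5⟩
        · rw [if_neg h4] at this
          split_ifs at this <;> omega
    have n4 : r B x y = 2 := by
      have := Finset.card_sdiff_add_card_inter (B x) (B y)
      rw [n3, h.card_Nn hs, h.cB, h.symm.card_inter hs] at this
      have : r B x y * s = 2 * s := by omega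
      exact Nat.eq_of_mul_eq_mul_right hs this
    rw [Finset.mem_biUnion]
    refine ⟨(x, y), ?_, ?_⟩
    · simp [D, n4]
    · rw [Finset.mem_product]
      refine ⟨?_, ?_⟩
      · have := hβ x y hxy
        show a ∈ Nn B A (β x y)
        rw [← mem_Nn_comm]
        exact n1 _ this.1 this.2
      · have := hβ y x hxy.symm
        show a' ∈ Nn B A (β y x)
        rw [← mem_Nn_comm]
        exact n2 _ this.1 this.2
  refine (Finset.card_le_card hsub).trans (Finset.card_biUnion_le_card_mul _ _ _ ?_)
  intro p _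
  rw [Finset.card_product, h.symm.card_Nn hs, h.symm.card_Nn hs]

theorem Conf.D_le (h : Conf A B) (hs : 0 < s) : (D A).card ≤ (D B).card := by
  have h1 := h.card_TT hs
  have h2 := h.TT_le hs
  rw [h1] at h2
  have h3 : (D A).card * (s * s) ≤ (D B).card * (s * s) := by nlinarith
  exact Nat.le_of_mul_le_mul_right h3 (by positivity)

theorem Conf.false (h : Conf A B) (hs : 0 < s) : False := by
  have h1 := h.D_le hs
  have h2 := h.symm.D_le hs
  have h3 : (D A).card + (D B).card = 30 := by
    rw [card_D, card_D, ← Finset.sum_add_distrib]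
    simp [h.d_add hs]
  obtain ⟨m, hm⟩ := h.even_D hs
  omega

end conf

theorem card_le_nine {s : ℕ} (hs : 0 < s) (G : Finset (Finset (Fin (10 * s) ⊕ Fin (10 * s))))
    (hG : IsSemiintersecting (3 * s) (10 * s) G) : G.card ≤ 9 := by
  by_contra hc
  have h10 : 10 ≤ G.card := by omega
  obtain ⟨H, hH, hHc⟩ := Finset.exists_subset_card_eq h10
  let e : Fin 10 ≃ H := (Fintype.equivFinOfCardEq (by simpa using hHc)).symm
  have hconf : Conf (fun i => (e i : Finset (Fin (10 * s) ⊕ Fin (10 * s))).toLeft)
      (fun i => (e i : Finset (Fin (10 * s) ⊕ Fin (10 * s))).toRight) := by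
    refine ⟨fun i => (hG.1 _ (hH (e i).2)).1, fun i => (hG.1 _ (hH (e i).2)).2, ?_⟩
    intro i j hij
    have hne : (e i : Finset (Fin (10 * s) ⊕ Fin (10 * s))) ≠ e j := by
      intro h
      exact hij (e.injective (Subtype.ext h))
    have := hG.2 _ (hH (e i).2) _ (hH (e j).2) hne
    unfold Xor at this
    tauto
  exact hconf.false hs

theorem f_le {s : ℕ} (hs : 0 < s) : f (3 * s) (10 * s) ≤ 9 := by
  apply csSup_le'
  rintro m ⟨G, hG, rfl⟩
  exact card_le_nine hs G hG

theorem formula_eq {s : ℕ} (hs : 0 < s) : (10 * s) * (10 * s / (3 * s)) / (3 * s) = 10 := by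
  have h1 : 10 * s / (3 * s) = 3 := by
    rw [Nat.mul_div_mul_right _ _ hs]
  rw [h1]
  have : 10 * s * 3 = 10 * (3 * s) := by ring
  rw [this, Nat.mul_div_cancel _ (by omega)]

/-- **Main result.** The answer to Q1 is negative: for every `s ≥ 2` the pair `(k, N) = (3 s, 10 s)`
satisfies `N ≤ k²`, the formula gives `10`, and `f(3 s, 10 s) ≤ 9`. The first failure in this
family is `(k, N) = (6, 20)`. -/
theorem result :
    (∀ s : ℕ, 2 ≤ s → 10 * s ≤ (3 * s) ^ 2 ∧ (10 * s) * (10 * s / (3 * s)) / (3 * s) = 10 ∧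
      f (3 * s) (10 * s) ≤ 9) ∧
    ¬ ∀ k N : ℕ, 0 < k → 0 < N → N ≤ k ^ 2 → f k N = N * (N / k) / k := by
  have h : ∀ s : ℕ, 2 ≤ s → 10 * s ≤ (3 * s) ^ 2 ∧ (10 * s) * (10 * s / (3 * s)) / (3 * s) = 10 ∧
      f (3 * s) (10 * s) ≤ 9 :=
    fun s hs => ⟨by nlinarith, formula_eq (by omega), f_le (by omega)⟩
  refine ⟨h, fun hall => ?_⟩
  have h1 := hall (3 * 2) (10 * 2) (by norm_num) (by norm_num) (by norm_num)
  obtain ⟨_, h2, h3⟩ := h 2 le_rfl
  omega

end Pool.Agent.Results.MP_0bba66_co.ThreeTen
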